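import Pool.Agent.H288.TF.Fin

/-!
# The converse limit theorem for iterated tree-free convolution is false

For the tree `T = {e, 0, 1, 2, 3, 01, 02, 03}` over four letters (`n(T) = 4`) one has
`K_{T(μ)}(z) = K_μ(z) + 3 K_μ(z - K_μ(z))`. The limit operation `BP(T, ·)` is not injective: near
the Cauchy-type laws with `K = 4 (π - i log 3)` the perturbation `exp (i z)` of `K` is killed in
the last convolution step, because `1 + 3 exp (-i (π - i log 3)) = 0`; the other odd Fourier modes
of `K` (and, near the resonances `j = 4^m`, even modes) can be chosen so that the result of all the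
`4^k`-fold convolutions is invariant under the translation by `π`, while `K` is not.
-/

set_option autoImplicit false

open MeasureTheory Set Filter Topology Pool.Agent.H288.TF

namespace Pool.Agent.Results.MP_50dbd7_an.TreeFreeConverse

/-- **The answer to Q1 of MP_50dbd7_an is negative.** For the tree
`TT = {e, 0, 1, 2, 3, 01, 02, 03}` over four letters there are probability measures `μ l` and
`k l → ∞` such that the iterated convolutions `ν l (k l)` of the `μ l` along `TT` converge weakly,
but the boolean powers `ρ l` of `μ l` with exponent `n(TT) ^ k l` do not converge weakly. -/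
theorem result :
    IsTree TT ∧ 1 < nroot TT ∧
    ∃ (μ : ℕ → ProbabilityMeasure ℝ) (k : ℕ → ℕ) (ν : ℕ → ℕ → ProbabilityMeasure ℝ)
      (ρ : ℕ → ProbabilityMeasure ℝ) (ν₀ : ProbabilityMeasure ℝ),
      Tendsto k atTop atTop ∧ (∀ l, ν l 0 = μ l) ∧
      (∀ l i, i < k l → IsTreeConv TT (ν l i) (ν l (i + 1))) ∧
      (∀ l, IsBoolPower ((nroot TT : ℝ) ^ k l) (μ l) (ρ l)) ∧
      Tendsto (fun l => ν l (k l)) atTop (𝓝 ν₀) ∧
      ¬ ∃ ρ₀ : ProbabilityMeasure ℝ, Tendsto ρ atTop (𝓝 ρ₀) := counterexample

end Pool.Agent.Results.MP_50dbd7_an.TreeFreeConverse
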